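import Pool.Agent.W331.CR.All

/-!
# Finitely generated groups of `C^{k,Lip}` diffeomorphisms which do not embed into `Diff^{k+1}`

Full (positive) answer to question Q1 of problem MP_02cf79_al, for every `k ≥ 1`, for `M = I` and for
`M = S^1`. The definitions `DiffI`, `DiffS` (and `ext01`, `IsLift`) are in
`Pool/Agent/W331/CR/Defs.lean`.
-/

set_option autoImplicit false

namespace Pool.Agent.Results.MP_02cf79_al.LipNotNext

open Set Function
open scoped ContDiff
open Pool.Agent.W331.CR (ext01 IsLift DiffI DiffS)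

/-- `Diff_+^{k,Lip}([0,1])`: the orientation preserving `C^k` diffeomorphisms of `[0,1]` whose `k`-th
derivative is Lipschitz on `[0,1]` -/
def LipDiffI (k : ℕ) : Set (Icc (0:ℝ) 1 ≃o Icc (0:ℝ) 1) :=
  {φ | φ ∈ DiffI k ∧
    ∃ K, LipschitzOnWith K (iteratedDerivWithin k (ext01 φ) (Icc 0 1)) (Icc 0 1)}

/-- `Diff_+^{k,Lip}(S^1)`: the orientation preserving `C^k` diffeomorphisms of the circle `ℝ/ℤ`
having a lift to the line whose `k`-th derivative is Lipschitz -/
def LipDiffS (k : ℕ) : Set (Equiv.Perm (AddCircle (1:ℝ))) :=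
  {σ | ∃ F : ℝ ≃o ℝ, IsLift k F ∧ (∃ K, LipschitzWith K (iteratedDeriv k (F : ℝ → ℝ))) ∧
    ∀ x : ℝ, σ (x : AddCircle (1:ℝ)) = ((F x : ℝ) : AddCircle (1:ℝ))}

/-- For every `k ≥ 1` there is a finitely generated subgroup of `Diff_+^{k,Lip}([0,1])` without
injective homomorphism into `Diff_+^{k+1}([0,1])`, and there is a finitely generated subgroup of
`Diff_+^{k,Lip}(S^1)` without injective homomorphism into `Diff_+^{k+1}(S^1)`. -/
theorem result : ∀ k : ℕ, 1 ≤ k →
    (∃ G : Subgroup (Icc (0:ℝ) 1 ≃o Icc (0:ℝ) 1), G.FG ∧ (G : Set _) ⊆ LipDiffI k ∧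
      ¬ ∃ φ : G →* DiffI (k + 1 : ℕ), Injective φ) ∧
    (∃ G : Subgroup (Equiv.Perm (AddCircle (1:ℝ))), G.FG ∧ (G : Set _) ⊆ LipDiffS k ∧
      ¬ ∃ φ : G →* DiffS (k + 1 : ℕ), Injective φ) :=
  Pool.Agent.W331.CR.t_final02

end Pool.Agent.Results.MP_02cf79_al.LipNotNext
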